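import Mathlib

set_option autoImplicit false

/-! Bounded differences of regular sequences, and two criteria against automaticity. -/

namespace Pool.Agent.Q50.BS

/-- The `k`-kernel of an integer sequence. -/
def kernel (k : ℕ) (a : ℕ → ℤ) : Set (ℕ → ℤ) :=
  {b | ∃ e j : ℕ, j < k ^ e ∧ b = fun n => a (k ^ e * n + j)}

/-- elements of a finitely generated submodule of `ℤ^ℕ` are determined by finitely many
coordinates -/
theorem exists_coords (W : Submodule ℤ (ℕ → ℤ)) (hW : W.FG) :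
    ∃ N : ℕ, ∀ w ∈ W, (∀ i < N, w i = 0) → w = 0 := by
  obtain ⟨G, hG⟩ := hW
  let c : (ℕ → ℤ) →ₗ[ℤ] (ℕ → ℚ) :=
    { toFun := fun f n => (f n : ℚ)
      map_add' := by intro f g; funext n; simp
      map_smul' := by intro m f; funext n; simp }
  let V : Submodule ℚ (ℕ → ℚ) := Submodule.span ℚ (c '' (G : Set (ℕ → ℤ)))
  have hfin : Module.Finite ℚ V :=
    Module.Finite.span_of_finite ℚ (Set.Finite.image _ G.finite_toSet)
  have hmem : ∀ w ∈ W, c w ∈ V := by
    intro w hw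
    rw [← hG] at hw
    refine Submodule.span_induction (p := fun x _ => c x ∈ V) ?_ ?_ ?_ ?_ hw
    · intro x hx
      exact Submodule.subset_span ⟨x, hx, rfl⟩
    · simp
    · intro x y _ _ hx hy
      rw [map_add]
      exact V.add_mem hx hy
    · intro a x _ hx
      rw [map_smul]
      have : a • c x = (a : ℚ) • c x := by
        funext n
        simp
      rw [this]
      exact V.smul_mem _ hx
  let f : ℕ → Submodule ℚ V := fun N =>
    { carrier := {v | ∀ i < N, (v : ℕ → ℚ) i = 0}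
      add_mem' := by
        intro a b ha hb i hi
        have h1 := ha i hi
        have h2 := hb i hi
        simp [h1, h2]
      zero_mem' := by intro i _; simp
      smul_mem' := by
        intro q a ha i hi
        have h1 := ha i hi
        simp [h1] }
  have hmono : ∀ N N' : ℕ, N ≤ N' → f N' ≤ f N := by
    intro N N' h v hv i hi
    exact hv i (lt_of_lt_of_le hi h)
  let F : ℕ →o (Submodule ℚ V)ᵒᵈ := ⟨fun N => OrderDual.toDual (f N), fun N N' h => hmono N N' h⟩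
  obtain ⟨N, hN⟩ := IsArtinian.monotone_stabilizes F
  refine ⟨N, fun w hw h0 => ?_⟩
  have hv : (⟨c w, hmem w hw⟩ : V) ∈ f N := by
    intro i hi
    show ((w i : ℤ) : ℚ) = 0
    rw [h0 i hi]; simp
  funext i
  have h1 : f N = f (max N (i + 1)) := by
    have := hN (max N (i + 1)) (le_max_left _ _)
    exact this
  rw [h1] at hv
  have h2 : ((w i : ℤ) : ℚ) = 0 := hv i (lt_of_lt_of_le (Nat.lt_succ_self i) (le_max_right _ _))
  exact_mod_cast h2

/-- The differences of a `k`-regular sequence have a finite kernel if they are bounded. -/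
theorem finite_kernel_diff (k : ℕ) (hk : 1 ≤ k) (a : ℕ → ℤ)
    (hreg : (Submodule.span ℤ (kernel k a)).FG) (C : ℤ)
    (hb : ∀ n, 0 ≤ a (n + 1) - a n ∧ a (n + 1) - a n ≤ C) :
    (kernel k (fun n => a (n + 1) - a n)).Finite := by
  let M := Submodule.span ℤ (kernel k a)
  let S : (ℕ → ℤ) →ₗ[ℤ] (ℕ → ℤ) := LinearMap.funLeft ℤ ℤ Nat.succ
  have hM : M.FG := hreg
  have hW : (M ⊔ M.map S).FG := Submodule.FG.sup hM (hM.map S)
  obtain ⟨N, hN⟩ := exists_coords _ hW
  have hsub : ∀ u ∈ kernel k (fun n => a (n + 1) - a n), u ∈ M ⊔ M.map S := by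
    rintro u ⟨e, j, hj, rfl⟩
    have h1 : (fun n => a (k ^ e * n + j)) ∈ M := Submodule.subset_span ⟨e, j, hj, rfl⟩
    have h2 : (fun n => a (k ^ e * n + j + 1)) ∈ M ⊔ M.map S := by
      rcases Nat.lt_or_ge (j + 1) (k ^ e) with h | h
      · apply Submodule.mem_sup_left
        exact Submodule.subset_span ⟨e, j + 1, h, rfl⟩
      · apply Submodule.mem_sup_right
        have h3 : (fun n => a (k ^ e * n + 0)) ∈ M :=
          Submodule.subset_span ⟨e, 0, by positivity, rfl⟩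
        refine ⟨_, h3, ?_⟩
        funext n
        show a (k ^ e * (n + 1) + 0) = a (k ^ e * n + j + 1)
        congr 1
        have : j + 1 = k ^ e := by omega
        rw [mul_add, add_assoc, add_assoc, this]
        ring
    have h4 : (fun n => a (k ^ e * n + j + 1) - a (k ^ e * n + j)) =
        (fun n => a (k ^ e * n + j + 1)) - (fun n => a (k ^ e * n + j)) := rfl
    show (fun n => a (k ^ e * n + j + 1) - a (k ^ e * n + j)) ∈ M ⊔ M.map S
    rw [h4]
    exact Submodule.sub_mem _ h2 (Submodule.mem_sup_left h1)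
  let g : (ℕ → ℤ) → (Fin N → ℤ) := fun u i => u i
  apply Set.Finite.of_finite_image (f := g)
  · apply Set.Finite.subset (s := Set.pi Set.univ (fun _ : Fin N => Set.Icc (0 : ℤ) C))
    · exact Set.Finite.pi (fun _ => Set.finite_Icc _ _)
    · rintro _ ⟨u, ⟨e, j, hj, rfl⟩, rfl⟩ i _
      exact hb _
  · intro u hu v hv huv
    have h1 : u - v ∈ M ⊔ M.map S := Submodule.sub_mem _ (hsub u hu) (hsub v hv)
    have h2 := hN _ h1 (by
      intro i hi
      have h3 : g u ⟨i, hi⟩ = g v ⟨i, hi⟩ := by rw [huv]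
      have h4 : u i = v i := h3
      simp [h4])
    exact sub_eq_zero.1 h2

/-- the classes -/
theorem exists_class (k : ℕ) (σ : ℕ → ℤ) (hfin : (Set.range σ).Finite)
    (hker : (kernel k σ).Finite) :
    ∃ (κ : Type) (_ : Finite κ) (V : ℕ → κ), ∀ n n' : ℕ, V n = V n' →
      ∀ e j : ℕ, j < k ^ e → σ (k ^ e * n + j) = σ (k ^ e * n' + j) := by
  have : Finite (kernel k σ) := hker.to_subtype
  have : Finite (Set.range σ) := hfin.to_subtype
  have hmem : ∀ (u : kernel k σ) (n : ℕ), u.1 n ∈ Set.range σ := by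
    rintro ⟨u, e, j, _, rfl⟩ n
    exact ⟨_, rfl⟩
  let V : ℕ → (kernel k σ → Set.range σ) := fun n u => ⟨u.1 n, hmem u n⟩
  refine ⟨kernel k σ → Set.range σ, inferInstance, V, ?_⟩
  intro n n' h e j hj
  exact congrArg Subtype.val (congrFun h ⟨fun n => σ (k ^ e * n + j), e, j, hj, rfl⟩)

/-- First criterion. -/
theorem crit_one (k : ℕ) (σ : ℕ → ℤ) (c : ℤ) (hfin : (Set.range σ).Finite)
    (hker : (kernel k σ).Finite) (P : ℕ → Prop)
    (H1 : ∀ e : ℕ, ∃ n : ℕ, P n ∧ ∀ j < k ^ e, σ (k ^ e * n + j) = c)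
    (H2 : ∀ n : ℕ, P n → ∃ E : ℕ, ∀ e, E ≤ e → ∃ j < k ^ e, σ (k ^ e * n + j) ≠ c) : False := by
  obtain ⟨κ, hκ, V, hV⟩ := exists_class k σ hfin hker
  choose N hN1 hN using H1
  obtain ⟨v, hv⟩ := Finite.exists_infinite_fiber (fun e : ℕ => V (N e))
  rw [Set.infinite_coe_iff] at hv
  obtain ⟨e0, he0⟩ := hv.nonempty
  obtain ⟨E, hE⟩ := H2 (N e0) (hN1 e0)
  obtain ⟨e, he, heE⟩ := hv.exists_gt E
  obtain ⟨j, hj, hne⟩ := hE e heE.le
  apply hne
  have h1 : V (N e0) = V (N e) := by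
    have h3 : V (N e0) = v := he0
    have h4 : V (N e) = v := he
    rw [h3, h4]
  rw [hV _ _ h1 e j hj]
  exact hN e j hj

/-- Second criterion: along some arithmetic progression of exponents, the block with a given
index is always constantly `c` or never constantly `c`. -/
theorem crit_two (k : ℕ) (hk : 1 ≤ k) (σ : ℕ → ℤ) (c : ℤ) (hfin : (Set.range σ).Finite)
    (hker : (kernel k σ).Finite) (n : ℕ) :
    ∃ e1 T : ℕ, 1 ≤ T ∧ ∀ t : ℕ,
      ((∀ j < k ^ (e1 + t * T), σ (k ^ (e1 + t * T) * n + j) = c) ↔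
        (∀ j < k ^ e1, σ (k ^ e1 * n + j) = c)) := by
  obtain ⟨κ, hκ, V, hV⟩ := exists_class k σ hfin hker
  let X : ℕ → Set κ := fun e => {v | ∃ j < k ^ e, v = V (k ^ e * n + j)}
  obtain ⟨e1, e2, hne, hX⟩ := Finite.exists_ne_map_eq_of_infinite X
  wlog hlt : e1 < e2 generalizing e1 e2 with hsym
  · exact hsym e2 e1 (Ne.symm hne) hX.symm (by omega)
  -- one direction of transfer
  have key : ∀ a b : ℕ, X a ⊆ X b → ∀ i : ℕ,
      (∀ j < k ^ (b + i), σ (k ^ (b + i) * n + j) = c) →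
      (∀ j < k ^ (a + i), σ (k ^ (a + i) * n + j) = c) := by
    intro a b hab i hb j hj
    have hki : 0 < k ^ i := by positivity
    -- write j = k^i * j1 + j0
    obtain ⟨j1, j0, hj0, hj1, hje⟩ : ∃ j1 j0, j0 < k ^ i ∧ j1 < k ^ a ∧ j = k ^ i * j1 + j0 := by
      refine ⟨j / k ^ i, j % k ^ i, Nat.mod_lt _ hki, ?_, (Nat.div_add_mod j (k ^ i)).symm⟩
      rw [Nat.div_lt_iff_lt_mul hki, ← pow_add]
      exact hj
    have h1 : V (k ^ a * n + j1) ∈ X a := ⟨j1, hj1, rfl⟩
    obtain ⟨j2, hj2, he⟩ := hab h1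
    have h2 := hV _ _ he i j0 hj0
    have e1' : k ^ (a + i) * n + j = k ^ i * (k ^ a * n + j1) + j0 := by
      rw [hje, pow_add]; ring
    rw [e1', h2]
    have e2' : k ^ i * (k ^ b * n + j2) + j0 = k ^ (b + i) * n + (k ^ i * j2 + j0) := by
      rw [pow_add]; ring
    rw [e2']
    apply hb
    have : k ^ i * j2 + k ^ i ≤ k ^ (b + i) := by
      rw [pow_add, mul_comm (k ^ b)]
      have := Nat.mul_le_mul_left (k ^ i) (show j2 + 1 ≤ k ^ b from hj2)
      rw [mul_add, mul_one] at this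
      exact this
    omega
  have key2 : ∀ i : ℕ, ((∀ j < k ^ (e1 + i), σ (k ^ (e1 + i) * n + j) = c) ↔
      (∀ j < k ^ (e2 + i), σ (k ^ (e2 + i) * n + j) = c)) := fun i =>
    ⟨key e2 e1 hX.symm.subset i, key e1 e2 hX.subset i⟩
  refine ⟨e1, e2 - e1, by omega, ?_⟩
  intro t
  induction t with
  | zero => simp
  | succ t ih =>
    rw [← ih]
    have h := key2 (t * (e2 - e1))
    have e3 : e2 + t * (e2 - e1) = e1 + (t + 1) * (e2 - e1) := by
      rw [add_mul, one_mul]; omega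
    rw [e3] at h
    exact h.symm

/-- Powers of `2` over powers of `k` are dense, `k` not a power of `2`. -/
theorem dens (k : ℕ) (hk : 2 ≤ k) (hpow : ∀ p : ℕ, k ≠ 2 ^ p) (T e1 : ℕ) (hT : 1 ≤ T)
    (y1 y2 : ℝ) (h1 : 0 < y1) (h12 : y1 < y2) (N : ℕ) :
    ∃ t : ℕ, N ≤ t ∧ ∃ j : ℕ, N ≤ j ∧ y1 * (k : ℝ) ^ (e1 + t * T) < 2 ^ j ∧
      2 ^ j < y2 * (k : ℝ) ^ (e1 + t * T) := by
  have hl2 : 0 < Real.log 2 := Real.log_pos (by norm_num)
  have hk1 : (1 : ℝ) < k := by exact_mod_cast (by omega : 1 < k)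
  have hlk : 0 < Real.log k := Real.log_pos hk1
  have hirr : Irrational (Real.log k / Real.log 2) := by
    rintro ⟨q, hq⟩
    have hqpos : (0 : ℝ) < q := by rw [hq]; positivity
    have hq0 : 0 < q := by exact_mod_cast hqpos
    have hnum : 0 < q.num := Rat.num_pos.2 hq0
    obtain ⟨a, ha⟩ : ∃ a : ℕ, q.num = a := ⟨q.num.toNat, by omega⟩
    have hden : (q.den : ℝ) ≠ 0 := by exact_mod_cast q.den_nz
    have e1 : (q : ℝ) = a / q.den := by
      rw [Rat.cast_def, ha]; simp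
    rw [e1, div_eq_div_iff hden hl2.ne'] at hq
    have e2 : Real.log ((2 : ℝ) ^ a) = Real.log ((k : ℝ) ^ q.den) := by
      rw [Real.log_pow, Real.log_pow, hq, mul_comm]
    have e3 : (2 : ℝ) ^ a = (k : ℝ) ^ q.den :=
      Real.log_injOn_pos (Set.mem_Ioi.2 (by positivity)) (Set.mem_Ioi.2 (by positivity)) e2
    have e4 : 2 ^ a = k ^ q.den := by exact_mod_cast e3
    have e5 : k ∣ 2 ^ a := by rw [e4]; exact dvd_pow_self _ q.den_nz
    obtain ⟨p, _, hp⟩ := (Nat.dvd_prime_pow Nat.prime_two).1 e5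
    exact hpow p hp
  set L : ℝ := Real.log k / Real.log 2 with hL
  have hLpos : 0 < L := by positivity
  have hirr2 : Irrational ((T : ℝ) * L) := by
    have := hirr.natCast_mul (m := T) (by omega)
    exact this
  -- density on the circle
  have hF : Fact ((0 : ℝ) < 1) := ⟨one_pos⟩
  have hd : DenseRange (fun m : ℤ => m • ((-((T : ℝ) * L) : ℝ) : AddCircle (1 : ℝ))) := by
    rw [AddCircle.denseRange_zsmul_coe_iff]
    rw [div_one]
    exact hirr2.neg
  set z1 : ℝ := Real.log y1 / Real.log 2 + e1 * L with hz1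
  set z2 : ℝ := Real.log y2 / Real.log 2 + e1 * L with hz2
  have hz12 : z1 < z2 := by
    have := Real.log_lt_log h1 h12
    have h3 : Real.log y1 / Real.log 2 < Real.log y2 / Real.log 2 := by gcongr
    linarith
  let U : Set (AddCircle (1 : ℝ)) := (fun x : ℝ => (x : AddCircle (1 : ℝ))) '' Set.Ioo z1 z2
  have hUo : IsOpen U := QuotientAddGroup.isOpenMap_coe _ isOpen_Ioo
  have hUn : U.Nonempty := (Set.nonempty_Ioo.2 hz12).image _
  obtain ⟨m, hm⟩ := hd.exists_mem_open hUo hUn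
  have hcl := mapClusterPt_self_zsmul_atTop_nsmul
    ((-((T : ℝ) * L) : ℝ) : AddCircle (1 : ℝ)) m
  have hfreq : ∃ᶠ n : ℕ in Filter.atTop, n • ((-((T : ℝ) * L) : ℝ) : AddCircle (1 : ℝ)) ∈ U :=
    hcl.frequently (hUo.mem_nhds hm)
  -- choose t large
  obtain ⟨t0, ht0⟩ : ∃ t0 : ℕ, (N : ℝ) - z1 ≤ t0 * ((T : ℝ) * L) := by
    obtain ⟨t0, ht0⟩ := exists_nat_ge (((N : ℝ) - z1) / ((T : ℝ) * L))
    have hTL : 0 < (T : ℝ) * L := by
      have : (0 : ℝ) < T := by exact_mod_cast (by omega : 0 < T)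
      positivity
    exact ⟨t0, (div_le_iff₀ hTL).1 ht0⟩
  obtain ⟨t, ht, htU⟩ := (Filter.frequently_atTop.1 hfreq) (max N t0)
  refine ⟨t, le_trans (le_max_left _ _) ht, ?_⟩
  obtain ⟨z, ⟨hz1', hz2'⟩, hz⟩ := htU
  have hz' : ((z + t * ((T : ℝ) * L) : ℝ) : AddCircle (1 : ℝ)) = 0 := by
    have : ((z : ℝ) : AddCircle (1 : ℝ)) = ((t • (-((T : ℝ) * L)) : ℝ) : AddCircle (1 : ℝ)) := by
      rw [AddCircle.coe_nsmul]; exact hz
    rw [AddCircle.coe_add, this, ← AddCircle.coe_add]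
    have e : (t • (-((T : ℝ) * L)) + t * ((T : ℝ) * L) : ℝ) = 0 := by
      rw [nsmul_eq_mul]; ring
    rw [e]; simp
  rw [AddCircle.coe_eq_zero_iff] at hz'
  obtain ⟨i, hi⟩ := hz'
  rw [zsmul_eq_mul, mul_one] at hi
  have htT : (t0 : ℝ) * ((T : ℝ) * L) ≤ t * ((T : ℝ) * L) := by
    have h5 : (t0 : ℝ) ≤ t := by exact_mod_cast (le_trans (le_max_right _ _) ht)
    exact mul_le_mul_of_nonneg_right h5 (by positivity)
  have hiN : (N : ℝ) < i := by rw [hi]; linarith
  have hiN' : (N : ℤ) < i := by exact_mod_cast hiN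
  obtain ⟨j, rfl⟩ : ∃ j : ℕ, i = j := ⟨i.toNat, by omega⟩
  refine ⟨j, by omega, ?_⟩
  have hij : (j : ℝ) = z + t * ((T : ℝ) * L) := by exact_mod_cast hi
  have hpowk : (0 : ℝ) < (k : ℝ) ^ (e1 + t * T) := by positivity
  have hlogk : Real.log ((k : ℝ) ^ (e1 + t * T)) = (e1 + t * T) * L * Real.log 2 := by
    rw [Real.log_pow, hL]; field_simp; push_cast; ring
  constructor
  · rw [← Real.log_lt_log_iff (by positivity) (by positivity), Real.log_mul h1.ne' hpowk.ne',
      hlogk, Real.log_pow, hij]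
    have h6 : Real.log y1 = (z1 - e1 * L) * Real.log 2 := by
      rw [hz1]; field_simp; ring
    rw [h6]
    nlinarith
  · have hy2 : 0 < y2 := h1.trans h12
    rw [← Real.log_lt_log_iff (by positivity) (by positivity), Real.log_mul hy2.ne' hpowk.ne',
      hlogk, Real.log_pow, hij]
    have h6 : Real.log y2 = (z2 - e1 * L) * Real.log 2 := by
      rw [hz2]; field_simp; ring
    rw [h6]
    nlinarith

end Pool.Agent.Q50.BS
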