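import Pool.Agent.Q50.BS.Auto

set_option autoImplicit false

/-! The zeros of the generalised Baum-Sweet sequences are not `k`-regular. -/

namespace Pool.Agent.Q50.BS

/-- The binary digits of `n` at the positions `i, …, i + l - 1` form a block of zeros: `l ≥ 1`,
these digits are `0`, the digit at position `i + l` is `1`, and either `i = 0` or the digit at
position `i - 1` is `1`. -/
def IsZeroBlock (n i l : ℕ) : Prop :=
  0 < l ∧ (∀ t, i ≤ t → t < i + l → n.testBit t = false) ∧ n.testBit (i + l) = true ∧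
    (i = 0 ∨ n.testBit (i - 1) = true)

open Classical in
/-- The generalised Baum-Sweet sequence. -/
noncomputable def b (r n : ℕ) : ℕ :=
  if n = 0 then 1 else if ∀ i l, IsZeroBlock n i l → r ∣ l then 1 else 0

theorem b_eq_zero {r n i l : ℕ} (h : IsZeroBlock n i l) (hd : ¬ r ∣ l) : b r n = 0 := by
  unfold b
  have hn : n ≠ 0 := by
    rintro rfl
    have := h.2.2.1
    simp at this
  rw [if_neg hn, if_neg]
  intro H
  exact hd (H i l h)

theorem b_eq_one {r n : ℕ} (h : ∀ i l, IsZeroBlock n i l → r ∣ l) : b r n = 1 := by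
  unfold b
  split_ifs
  · rfl
  · rfl

theorem b_two_pow_sub_one (r a : ℕ) : b r (2 ^ a - 1) = 1 := by
  apply b_eq_one
  rintro i l ⟨h1, h2, h3, -⟩
  have h4 := h2 i le_rfl (by omega)
  rw [Nat.testBit_two_pow_sub_one] at h3 h4
  simp at h3 h4
  omega

theorem b_mod_four {r m : ℕ} (hr : 2 ≤ r) (hm : m % 4 = 2) : b r m = 0 := by
  apply b_eq_zero (i := 0) (l := 1) _ (by
    intro h
    have := Nat.le_of_dvd (by norm_num) h
    omega)
  refine ⟨by norm_num, ?_, ?_, Or.inl rfl⟩
  · intro t _ ht
    have : t = 0 := by omega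
    subst this
    rw [Nat.testBit_zero]
    simp; omega
  · rw [Nat.testBit_succ, Nat.testBit_zero]
    simp; omega

/-- zeros after `2^j + 2^(j-r)` -/
theorem b_zero_run {r j m : ℕ} (hr : 2 ≤ r) (hj : r ≤ j) (h1 : 2 ^ j + 2 ^ (j - r) ≤ m)
    (h2 : m < 2 ^ j + 2 ^ (j - 1)) : b r m = 0 := by
  have hp0 : 0 < 2 ^ (j - r) := by positivity
  obtain ⟨x, rfl⟩ : ∃ x, m = 2 ^ j + x := ⟨m - 2 ^ j, by omega⟩
  have hx1 : 2 ^ (j - r) ≤ x := by omega
  have hx2 : x < 2 ^ (j - 1) := by omega
  have hx0 : x ≠ 0 := by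
    have : 0 < 2 ^ (j - r) := by positivity
    omega
  set s := Nat.log 2 x with hs
  have hs1 : 2 ^ s ≤ x := Nat.pow_log_le_self 2 hx0
  have hs2 : x < 2 ^ (s + 1) := Nat.lt_pow_succ_log_self (by norm_num) x
  have hsj : s < j - 1 := (Nat.pow_lt_pow_iff_right (by norm_num)).1 (lt_of_le_of_lt hs1 hx2)
  have hsr : j - r < s + 1 := (Nat.pow_lt_pow_iff_right (by norm_num)).1 (lt_of_le_of_lt hx1 hs2)
  have hxj : x < 2 ^ j := lt_trans hx2 (Nat.pow_lt_pow_right (by norm_num) (by omega))
  apply b_eq_zero (i := s + 1) (l := j - s - 1)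
  · refine ⟨by omega, ?_, ?_, Or.inr ?_⟩
    · intro t ht1 ht2
      rw [Nat.testBit_two_pow_add_gt (by omega)]
      apply Nat.testBit_lt_two_pow
      exact lt_of_lt_of_le hs2 (Nat.pow_le_pow_right (by norm_num) ht1)
    · have e : s + 1 + (j - s - 1) = j := by omega
      rw [e, Nat.testBit_two_pow_add_eq, Nat.testBit_lt_two_pow hxj]
      rfl
    · rw [Nat.add_sub_cancel, Nat.testBit_two_pow_add_gt (by omega)]
      rw [Nat.testBit_eq_decide_div_mod_eq]
      have : x / 2 ^ s = 1 := by
        apply Nat.div_eq_of_lt_le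
        · omega
        · rw [pow_succ] at hs2; omega
      rw [this]; rfl
  · intro h
    have := Nat.le_of_dvd (by omega) h
    omega

/-- the `1` just before -/
theorem b_before {r j : ℕ} (hr : 2 ≤ r) (hj : r ≤ j) :
    b r (2 ^ j + 2 ^ (j - r) - 1) = 1 := by
  have hp : 0 < 2 ^ (j - r) := by positivity
  have hp' : 0 < 2 ^ j := by positivity
  have e0 : 2 ^ j + 2 ^ (j - r) - 1 = 2 ^ j + (2 ^ (j - r) - 1) := by omega
  have hlt : 2 ^ (j - r) - 1 < 2 ^ j := by
    have : 2 ^ (j - r) ≤ 2 ^ j := Nat.pow_le_pow_right (by norm_num) (by omega)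
    omega
  have key : ∀ t, (2 ^ j + (2 ^ (j - r) - 1)).testBit t = true ↔ (t < j - r ∨ t = j) := by
    intro t
    rcases lt_trichotomy t j with h | h | h
    · rw [Nat.testBit_two_pow_add_gt h, Nat.testBit_two_pow_sub_one]
      simp; omega
    · subst h
      rw [Nat.testBit_two_pow_add_eq, Nat.testBit_lt_two_pow hlt]
      simp
    · have : 2 ^ j + (2 ^ (j - r) - 1) < 2 ^ t := by
        calc 2 ^ j + (2 ^ (j - r) - 1) < 2 ^ j + 2 ^ j := by omega
          _ = 2 ^ (j + 1) := by rw [pow_succ]; ring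
          _ ≤ 2 ^ t := Nat.pow_le_pow_right (by norm_num) h
      rw [Nat.testBit_lt_two_pow this]
      simp; omega
  rw [e0]
  apply b_eq_one
  rintro i l ⟨h1, h2, h3, h4⟩
  have h5 := h2 i le_rfl (by omega)
  have h5' : ¬ (i < j - r ∨ i = j) := by
    rw [← key, h5]; simp
  rw [key] at h3
  have h6 : i ≤ j - r := by
    rcases h4 with h4 | h4
    · omega
    · rw [key] at h4; omega
  have h7 : l = r := by omega
  rw [h7]

/-! ### Density zero -/

/-- no octal digit equals five -/
def Good (m : ℕ) : Prop := ∀ i, m / 8 ^ i % 8 ≠ 5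

theorem good_of_one {r m : ℕ} (hr : 2 ≤ r) (h : b r m ≠ 0) : Good m := by
  intro i hi
  apply h
  have h8 : (8 : ℕ) ^ i = 2 ^ (3 * i) := by rw [pow_mul]; norm_num
  have key : ∀ u < 3, m.testBit (3 * i + u) = (5 : ℕ).testBit u := by
    intro u hu
    rw [← hi, h8, show (8 : ℕ) = 2 ^ 3 by norm_num, Nat.testBit_mod_two_pow,
      Nat.testBit_div_two_pow]
    simp [hu, add_comm]
  apply b_eq_zero (i := 3 * i + 1) (l := 1) _ (by
    intro h
    have := Nat.le_of_dvd (by norm_num) h
    omega)
  refine ⟨by norm_num, ?_, ?_, Or.inr ?_⟩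
  · intro t ht1 ht2
    have : t = 3 * i + 1 := by omega
    rw [this, key 1 (by norm_num)]
    decide
  · rw [add_assoc, key (1 + 1) (by norm_num)]
    decide
  · have := key 0 (by norm_num)
    rw [Nat.add_sub_cancel]
    rw [Nat.add_zero] at this
    rw [this]
    decide

open Classical in
theorem card_good (s : ℕ) : ((Finset.range (8 ^ s)).filter Good).card ≤ 7 ^ s := by
  induction s with
  | zero =>
    refine (Finset.card_filter_le _ _).trans ?_
    simp
  | succ s ih =>
    have h1 : ((Finset.range (8 ^ (s + 1))).filter Good).card ≤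
        (((Finset.range (8 ^ s)).filter Good) ×ˢ ((Finset.range 8).erase 5)).card := by
      apply Finset.card_le_card_of_injOn (fun m => (m / 8, m % 8))
      · intro m hm
        rw [Finset.mem_coe, Finset.mem_filter, Finset.mem_range] at hm
        rw [Finset.mem_coe, Finset.mem_product, Finset.mem_filter, Finset.mem_range,
          Finset.mem_erase, Finset.mem_range]
        refine ⟨⟨?_, ?_⟩, ?_, Nat.mod_lt _ (by norm_num)⟩
        · show m / 8 < 8 ^ s
          rw [Nat.div_lt_iff_lt_mul (by norm_num), ← pow_succ]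
          exact hm.1
        · intro i
          show m / 8 / 8 ^ i % 8 ≠ 5
          rw [Nat.div_div_eq_div_mul, mul_comm, ← pow_succ]
          exact hm.2 (i + 1)
        · have := hm.2 0
          simpa using this
      · intro m _ m' _ h
        simp only [Prod.mk.injEq] at h
        have h2 := Nat.div_add_mod m 8
        have h3 := Nat.div_add_mod m' 8
        rw [← h2, ← h3, h.1, h.2]
    rw [Finset.card_product] at h1
    have h2 : ((Finset.range 8).erase 5).card = 7 := by decide
    rw [h2] at h1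
    calc _ ≤ _ := h1
      _ ≤ 7 ^ s * 7 := Nat.mul_le_mul_right 7 ih
      _ = 7 ^ (s + 1) := by rw [pow_succ]

open Classical in
/-- The number of `m < M` with `b r m ≠ 0`. -/
noncomputable def ones (r M : ℕ) : ℕ := ((Finset.range M).filter (fun m => b r m ≠ 0)).card

theorem ones_mono (r : ℕ) : Monotone (ones r) := by
  intro M M' h
  unfold ones
  apply Finset.card_le_card
  intro m hm
  rw [Finset.mem_filter, Finset.mem_range] at hm ⊢
  exact ⟨by omega, hm.2⟩

theorem ones_le (r s : ℕ) (hr : 2 ≤ r) : ones r (8 ^ s) ≤ 7 ^ s := by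
  classical
  refine le_trans ?_ (card_good s)
  unfold ones
  apply Finset.card_le_card
  intro m hm
  rw [Finset.mem_filter] at hm ⊢
  exact ⟨hm.1, good_of_one hr hm.2⟩

/-- `M_j`. -/
def MM (r j : ℕ) : ℕ := 2 ^ j + 2 ^ (j - r)

/-- the number of ones below `M_j` tends to infinity -/
theorem ones_ge (r j : ℕ) : j + 1 ≤ ones r (MM r j) := by
  classical
  have h : (Finset.image (fun a => 2 ^ a - 1) (Finset.range (j + 1))).card = j + 1 := by
    rw [Finset.card_image_of_injective, Finset.card_range]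
    intro a a' h
    simp only at h
    have h1 : 0 < 2 ^ a := by positivity
    have h2 : 0 < 2 ^ a' := by positivity
    exact Nat.pow_right_injective le_rfl (show 2 ^ a = 2 ^ a' by omega)
  rw [← h]
  unfold ones
  apply Finset.card_le_card
  intro m hm
  rw [Finset.mem_image] at hm
  obtain ⟨a, ha, rfl⟩ := hm
  rw [Finset.mem_range] at ha
  rw [Finset.mem_filter, Finset.mem_range, b_two_pow_sub_one]
  refine ⟨?_, by norm_num⟩
  have h1 : 2 ^ a ≤ 2 ^ j := Nat.pow_le_pow_right (by norm_num) (by omega)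
  have h2 : 0 < 2 ^ a := by positivity
  have h3 : 0 < 2 ^ (j - r) := by positivity
  unfold MM
  omega

/-- the number of ones below `M_j` is `o(2^j)` -/
theorem ones_small (r : ℕ) (hr : 2 ≤ r) (c : ℕ) : ∃ J, ∀ j, J ≤ j →
    c * ones r (MM r j) ≤ 2 ^ j := by
  obtain ⟨s0, hs0⟩ : ∃ s0 : ℕ, (8 * c) * 7 ^ s0 ≤ 8 ^ s0 := by
    obtain ⟨s0, h⟩ := exists_pow_lt_of_lt_one (show (0 : ℝ) < 1 / (8 * c + 1) by positivity)
      (show (7 / 8 : ℝ) < 1 by norm_num)
    refine ⟨s0, ?_⟩
    rw [div_pow, div_lt_div_iff₀ (by positivity) (by positivity)] at h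
    have h2 : (7 : ℝ) ^ s0 * (8 * c) ≤ 8 ^ s0 := by
      have : (0 : ℝ) < 7 ^ s0 := by positivity
      nlinarith
    have h3 : 7 ^ s0 * (8 * c) ≤ 8 ^ s0 := by exact_mod_cast h2
    rw [mul_comm]; exact h3
  have hs : ∀ s, s0 ≤ s → (8 * c) * 7 ^ s ≤ 8 ^ s := by
    intro s h
    induction s, h using Nat.le_induction with
    | base => exact hs0
    | succ s _ ih =>
      calc 8 * c * 7 ^ (s + 1) = (8 * c * 7 ^ s) * 7 := by rw [pow_succ]; ring
        _ ≤ 8 ^ s * 7 := Nat.mul_le_mul_right 7 ih
        _ ≤ 8 ^ s * 8 := Nat.mul_le_mul_left _ (by norm_num)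
        _ = 8 ^ (s + 1) := by rw [pow_succ]
  refine ⟨3 * s0, fun j hj => ?_⟩
  set s := (j + 3) / 3 with hsdef
  have hs1 : s0 ≤ s := by omega
  have h1 : MM r j ≤ 8 ^ s := by
    have : 2 ^ (j - r) ≤ 2 ^ j := Nat.pow_le_pow_right (by norm_num) (by omega)
    calc MM r j ≤ 2 ^ j + 2 ^ j := by unfold MM; omega
      _ = 2 ^ (j + 1) := by rw [pow_succ]; ring
      _ ≤ 2 ^ (3 * s) := Nat.pow_le_pow_right (by norm_num) (by omega)
      _ = 8 ^ s := by rw [pow_mul]; norm_num
  have h2 : ones r (MM r j) ≤ 7 ^ s := (ones_mono r h1).trans (ones_le r s hr)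
  have h3 := hs s hs1
  have h4 : 8 ^ s ≤ 8 * 2 ^ j := by
    calc 8 ^ s = 2 ^ (3 * s) := by rw [pow_mul]; norm_num
      _ ≤ 2 ^ (j + 3) := Nat.pow_le_pow_right (by norm_num) (by omega)
      _ = 8 * 2 ^ j := by rw [pow_add]; ring
  have h5 : 8 * (c * ones r (MM r j)) ≤ 8 * 2 ^ j := by
    calc 8 * (c * ones r (MM r j)) = 8 * c * ones r (MM r j) := by ring
      _ ≤ 8 * c * 7 ^ s := Nat.mul_le_mul_left _ h2
      _ ≤ 8 ^ s := h3
      _ ≤ 8 * 2 ^ j := h4
  omega

/-! ### The enumeration -/

section enum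

variable {r : ℕ} {h : ℕ → ℕ} (hr : 2 ≤ r) (hmono : StrictMono h)
  (hrange : Set.range h = {m | b r m = 0})

include hrange in
theorem h_zero (n : ℕ) : b r (h n) = 0 := by
  have : h n ∈ Set.range h := ⟨n, rfl⟩
  rw [hrange] at this
  exact this

include hmono hrange in
/-- consecutive zeros -/
theorem h_succ_eq {n : ℕ} (h1 : b r (h n + 1) = 0) : h (n + 1) = h n + 1 := by
  have : h n + 1 ∈ Set.range h := by rw [hrange]; exact h1
  obtain ⟨n', hn'⟩ := this
  have h2 : n < n' := hmono.lt_iff_lt.1 (by omega)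
  have h3 : h (n + 1) ≤ h n' := hmono.monotone h2
  have h4 : h n < h (n + 1) := hmono (Nat.lt_succ_self n)
  omega

include hr hmono hrange in
/-- bounded gaps -/
theorem h_gap (n : ℕ) : h (n + 1) ≤ h n + 4 := by
  obtain ⟨m, hm1, hm2, hm3⟩ : ∃ m, h n < m ∧ m ≤ h n + 4 ∧ m % 4 = 2 := by
    have : h n % 4 < 4 := Nat.mod_lt _ (by norm_num)
    have h4 : h n % 4 = 0 ∨ h n % 4 = 1 ∨ h n % 4 = 2 ∨ h n % 4 = 3 := by omega
    rcases h4 with h4 | h4 | h4 | h4
    · exact ⟨h n + 2, by omega, by omega, by omega⟩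
    · exact ⟨h n + 1, by omega, by omega, by omega⟩
    · exact ⟨h n + 4, by omega, by omega, by omega⟩
    · exact ⟨h n + 3, by omega, by omega, by omega⟩
  have : m ∈ Set.range h := by rw [hrange]; exact b_mod_four hr hm3
  obtain ⟨n', hn'⟩ := this
  have h2 : n < n' := hmono.lt_iff_lt.1 (by omega)
  have h3 : h (n + 1) ≤ h n' := hmono.monotone h2
  omega

include hmono hrange in
/-- the index of a zero plus the number of ones below it -/
theorem index_add (n : ℕ) : n + ones r (h n) = h n := by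
  classical
  have h1 : ((Finset.range (h n)).filter (fun m => ¬ b r m ≠ 0)).card = n := by
    have : (Finset.range (h n)).filter (fun m => ¬ b r m ≠ 0) =
        (Finset.range n).image h := by
      ext m
      rw [Finset.mem_filter, Finset.mem_image, Finset.mem_range]
      constructor
      · rintro ⟨hm1, hm2⟩
        have : m ∈ Set.range h := by rw [hrange]; exact not_not.1 hm2
        obtain ⟨n', rfl⟩ := this
        exact ⟨n', Finset.mem_range.2 (hmono.lt_iff_lt.1 hm1), rfl⟩
      · rintro ⟨n', hn', rfl⟩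
        refine ⟨hmono (Finset.mem_range.1 hn'), ?_⟩
        rw [not_not]
        exact h_zero hrange n'
    rw [this, Finset.card_image_of_injective _ hmono.injective, Finset.card_range]
  have h2 := Finset.card_filter_add_card_filter_not (s := Finset.range (h n))
    (fun m => b r m ≠ 0)
  rw [h1, Finset.card_range] at h2
  unfold ones
  omega

include hr hmono hrange in
/-- the structure around `M_j` -/
theorem structure_j (j : ℕ) (hj : r ≤ j) : ∃ nj : ℕ, nj + ones r (MM r j) = MM r j ∧
    (∀ n, nj ≤ n → n + ones r (MM r j) + 1 < 2 ^ j + 2 ^ (j - 1) →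
      ((h (n + 1) : ℤ) - h n = 1)) ∧
    (1 ≤ nj → (h (nj - 1 + 1) : ℤ) - h (nj - 1) ≠ 1) := by
  have hpow : 2 ^ (j - r) < 2 ^ (j - 1) := Nat.pow_lt_pow_right (by norm_num) (by omega)
  have h0 : b r (MM r j) = 0 := b_zero_run hr hj le_rfl (by unfold MM; omega)
  have : MM r j ∈ Set.range h := by rw [hrange]; exact h0
  obtain ⟨nj, hnj⟩ := this
  have hidx : nj + ones r (MM r j) = MM r j := by
    have := index_add hmono hrange nj
    rw [hnj] at this
    exact this
  refine ⟨nj, hidx, ?_, ?_⟩
  · have key : ∀ i, MM r j + i < 2 ^ j + 2 ^ (j - 1) → h (nj + i) = MM r j + i := by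
      intro i
      induction i with
      | zero => intro _; rw [add_zero, add_zero]; exact hnj
      | succ i ih =>
        intro hi
        have h1 := ih (by omega)
        have h2 : b r (h (nj + i) + 1) = 0 := by
          rw [h1]
          exact b_zero_run hr hj (by unfold MM; omega) (by omega)
        have h3 := h_succ_eq hmono hrange h2
        rw [← add_assoc, h3, h1]
        ring
    intro n hn1 hn2
    obtain ⟨i, rfl⟩ : ∃ i, n = nj + i := ⟨n - nj, by omega⟩
    have h1 := key i (by omega)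
    have h2 := key (i + 1) (by omega)
    rw [← add_assoc] at h2
    rw [h1, h2]
    push_cast
    ring
  · intro h1 h2
    have h3 : nj - 1 + 1 = nj := by omega
    rw [h3, hnj] at h2
    have h4 : h (nj - 1) = MM r j - 1 := by
      have : ((h (nj - 1) : ℕ) : ℤ) = (MM r j : ℤ) - 1 := by linarith
      omega
    have h5 := h_zero hrange (nj - 1)
    rw [h4] at h5
    have h6 := b_before hr hj
    unfold MM at h5
    rw [h5] at h6
    exact absurd h6 (by norm_num)

end enum

/-- **The enumeration of the zeros of a generalised Baum-Sweet sequence is not `k`-regular.** -/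
theorem main (r : ℕ) (hr : 2 ≤ r) (h : ℕ → ℕ) (hmono : StrictMono h)
    (hrange : Set.range h = {m | b r m = 0}) (k : ℕ) (hk : 2 ≤ k) :
    ¬ (Submodule.span ℤ (kernel k (fun n => (h n : ℤ)))).FG := by
  intro hreg
  have hker := finite_kernel_diff k (by omega) (fun n => (h n : ℤ)) hreg 4 (by
    intro n
    have h1 : h n < h (n + 1) := hmono (Nat.lt_succ_self n)
    have h2 := h_gap hr hmono hrange n
    constructor
    · have : (h n : ℤ) < h (n + 1) := by exact_mod_cast h1
      linarith
    · have : (h (n + 1) : ℤ) ≤ h n + 4 := by exact_mod_cast h2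
      linarith)
  set σ : ℕ → ℤ := fun n => (h (n + 1) : ℤ) - h n with hσ
  have hfin : (Set.range σ).Finite := by
    apply (Set.finite_Icc (0 : ℤ) 4).subset
    rintro _ ⟨n, rfl⟩
    have h1 : h n < h (n + 1) := hmono (Nat.lt_succ_self n)
    have h2 := h_gap hr hmono hrange n
    constructor
    · have : (h n : ℤ) < h (n + 1) := by exact_mod_cast h1
      show (0 : ℤ) ≤ h (n + 1) - h n
      linarith
    · have : (h (n + 1) : ℤ) ≤ h n + 4 := by exact_mod_cast h2
      show (h (n + 1) : ℤ) - h n ≤ 4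
      linarith
  by_cases hpow : ∀ p : ℕ, k ≠ 2 ^ p
  · -- rotation
    obtain ⟨e1, T, hT, hper⟩ := crit_two k (by omega) σ 1 hfin hker 8
    obtain ⟨J, hJ⟩ := ones_small r hr 100
    -- a block inside a run
    obtain ⟨t, _, j, hj, hlo, hhi⟩ := dens k hk hpow T e1 hT (61 / 10) (64 / 10)
      (by norm_num) (by norm_num) (J + r + 100)
    have hall : ∀ i < k ^ (e1 + t * T), σ (k ^ (e1 + t * T) * 8 + i) = 1 := by
      obtain ⟨nj, hn1, hn2, -⟩ := structure_j hr hmono hrange j (by omega)
      have ho := hJ j (by omega)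
      intro i hi
      set K := k ^ (e1 + t * T) with hK
      have hlo' : 61 * K < 10 * 2 ^ j := by
        have : (61 : ℝ) * K < 10 * 2 ^ j := by rw [hK]; push_cast; linarith
        exact_mod_cast this
      have hhi' : 10 * 2 ^ j < 64 * K := by
        have : (10 : ℝ) * 2 ^ j < 64 * K := by rw [hK]; push_cast; linarith
        exact_mod_cast this
      have hM : 4 * MM r j ≤ 5 * 2 ^ j := by
        have h3 : 2 ^ (j - r) * 4 ≤ 2 ^ j := by
          calc 2 ^ (j - r) * 4 = 2 ^ (j - r + 2) := by rw [pow_add]; norm_num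
            _ ≤ 2 ^ j := Nat.pow_le_pow_right (by norm_num) (by omega)
        unfold MM; omega
      have hj1 : 2 ^ j = 2 * 2 ^ (j - 1) := by
        rw [← pow_succ']; congr 1; omega
      have hbig : 100 ≤ 2 ^ j := by
        calc 100 ≤ 2 ^ 100 := by norm_num
          _ ≤ 2 ^ j := Nat.pow_le_pow_right (by norm_num) (by omega)
      apply hn2
      · omega
      · omega
    have hiff := (hper t).1 hall
    -- a block containing a letter different from 1
    set μ : ℝ := 1 + 1 / 2 ^ r with hμ
    have hμ1 : 1 < μ := by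
      have : (0 : ℝ) < 1 / 2 ^ r := by positivity
      linarith
    obtain ⟨t', _, j', hj', hlo2, hhi2⟩ := dens k hk hpow T e1 hT (8 / (μ - 1 / 50)) (9 / μ)
      (by apply div_pos (by norm_num); linarith)
      (by rw [div_lt_div_iff₀ (by linarith) (by linarith)]; nlinarith) (J + r + 100)
    have hall' := (hper t').2 hiff
    obtain ⟨nj, hn1, -, hn3⟩ := structure_j hr hmono hrange j' (by omega)
    have ho := hJ j' (by omega)
    set K := k ^ (e1 + t' * T) with hK
    have hMr : (MM r j' : ℝ) = μ * 2 ^ j' := by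
      unfold MM
      push_cast
      have : (2 : ℝ) ^ j' = 2 ^ (j' - r) * 2 ^ r := by
        rw [← pow_add]; congr 1; omega
      rw [hμ, this]
      field_simp
    have hKr : ((k : ℝ) ^ (e1 + t' * T)) = (K : ℝ) := by rw [hK]; push_cast; rfl
    rw [hKr] at hlo2 hhi2
    have hbig : 100 ≤ 2 ^ j' := by
      calc 100 ≤ 2 ^ 100 := by norm_num
        _ ≤ 2 ^ j' := Nat.pow_le_pow_right (by norm_num) (by omega)
    have hbr : (100 : ℝ) ≤ 2 ^ j' := by exact_mod_cast hbig
    have hor : 100 * (ones r (MM r j') : ℝ) ≤ 2 ^ j' := by exact_mod_cast ho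
    have hnr : (nj : ℝ) + ones r (MM r j') = MM r j' := by exact_mod_cast hn1
    have hup : (MM r j' : ℝ) < 9 * K := by
      rw [hMr]
      have : 2 ^ j' * μ < 9 / μ * K * μ := by
        apply mul_lt_mul_of_pos_right hhi2 (by linarith)
      have e : 9 / μ * K * μ = 9 * K := by field_simp
      rw [e] at this
      linarith
    have hdown : 8 * (K : ℝ) < (μ - 1 / 50) * 2 ^ j' := by
      have h50 : 0 < μ - 1 / 50 := by linarith
      have : 8 / (μ - 1 / 50) * K * (μ - 1 / 50) < 2 ^ j' * (μ - 1 / 50) :=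
        mul_lt_mul_of_pos_right hlo2 h50
      have e : 8 / (μ - 1 / 50) * K * (μ - 1 / 50) = 8 * K := by
        rw [div_mul_eq_mul_div, div_mul_cancel₀ _ h50.ne']
      rw [e] at this
      linarith
    have hlow : 8 * (K : ℝ) + 1 ≤ nj := by
      have h5 : (nj : ℝ) = μ * 2 ^ j' - ones r (MM r j') := by rw [← hMr]; linarith
      rw [h5]
      nlinarith
    have hlowN : 8 * K + 1 ≤ nj := by exact_mod_cast hlow
    have hupN : MM r j' < 9 * K := by exact_mod_cast hup
    apply hn3 (by omega)
    have h7 := hall' (nj - 1 - K * 8) (by omega)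
    have e7 : K * 8 + (nj - 1 - K * 8) = nj - 1 := by omega
    rw [e7] at h7
    exact h7
  · -- powers of two
    push Not at hpow
    obtain ⟨p, hp⟩ := hpow
    have hp1 : 1 ≤ p := by
      rcases Nat.eq_zero_or_pos p with h0 | h0
      · rw [h0] at hp; simp at hp; omega
      · exact h0
    have hkpow : ∀ e, k ^ e = 2 ^ (p * e) := by
      intro e; rw [hp, pow_mul]
    have hMM : ∀ e, MM r (r + p * e) = k ^ e * (2 ^ r + 1) := by
      intro e
      unfold MM
      rw [hkpow, Nat.add_sub_cancel_left, pow_add]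
      ring
    have h4M : ∀ e, 4 * MM r (r + p * e) ≤ 5 * 2 ^ (r + p * e) := by
      intro e
      have h3 : 2 ^ (r + p * e - r) * 4 ≤ 2 ^ (r + p * e) := by
        calc 2 ^ (r + p * e - r) * 4 = 2 ^ (r + p * e - r + 2) := by rw [pow_add]; norm_num
          _ ≤ 2 ^ (r + p * e) := Nat.pow_le_pow_right (by norm_num) (by omega)
      unfold MM; omega
    apply crit_one k σ 1 hfin hker (fun n => ∃ s, n + 1 = k ^ s * (2 ^ r + 1))
    · intro e
      obtain ⟨J, hJ⟩ := ones_small r hr 8
      set s := J + k ^ e with hs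
      set j := r + p * (s + e) with hjdef
      have hjJ : J ≤ j := by
        have : s + e ≤ p * (s + e) := Nat.le_mul_of_pos_left _ hp1
        omega
      have hje : k ^ e ≤ j := by
        have : s + e ≤ p * (s + e) := Nat.le_mul_of_pos_left _ hp1
        omega
      have hpos : 0 < k ^ s * (2 ^ r + 1) := by positivity
      refine ⟨k ^ s * (2 ^ r + 1) - 1, ⟨s, by omega⟩, ?_⟩
      obtain ⟨nj, hn1, hn2, -⟩ := structure_j hr hmono hrange j (by omega)
      have ho := hJ j hjJ
      have hge := ones_ge r j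
      have hM := h4M (s + e)
      rw [← hjdef] at hM
      intro i hi
      have e1 : k ^ e * (k ^ s * (2 ^ r + 1) - 1) + k ^ e = MM r j := by
        rw [hjdef, hMM, pow_add k s e]
        have : k ^ e * (k ^ s * (2 ^ r + 1) - 1) + k ^ e =
            k ^ e * ((k ^ s * (2 ^ r + 1) - 1) + 1) := by ring
        rw [this, Nat.sub_add_cancel hpos]
        ring
      have hj1 : 2 ^ j = 2 * 2 ^ (j - 1) := by
        rw [← pow_succ']; congr 1; omega
      have h2j : 0 < 2 ^ (j - 1) := by positivity
      apply hn2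
      · omega
      · omega
    · rintro n ⟨s, hs⟩
      obtain ⟨J, hJ⟩ := ones_small r hr (2 * (2 ^ r * k ^ s))
      refine ⟨J, fun e he => ?_⟩
      set j := r + p * (s + e) with hjdef
      have hjJ : J ≤ j := by
        have : s + e ≤ p * (s + e) := Nat.le_mul_of_pos_left _ hp1
        omega
      obtain ⟨nj, hn1, -, hn3⟩ := structure_j hr hmono hrange j (by omega)
      have ho := hJ j hjJ
      have hge := ones_ge r j
      have e1 : k ^ e * n + k ^ e = MM r j := by
        rw [hjdef, hMM, pow_add k s e]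
        have : k ^ e * n + k ^ e = k ^ e * (n + 1) := by ring
        rw [this, hs]; ring
      have e2 : 2 ^ j = (2 ^ r * k ^ s) * k ^ e := by
        rw [hjdef, pow_add 2 r, ← hkpow, pow_add]; ring
      rw [e2, mul_comm 2, mul_assoc] at ho
      have hpos : 0 < 2 ^ r * k ^ s := by positivity
      have ho2 := Nat.le_of_mul_le_mul_left ho hpos
      have hn0 : 0 < n := by
        have h1 : 1 ≤ k ^ s := Nat.one_le_pow _ _ (by omega)
        have h2 : 2 ≤ k ^ s * (2 ^ r + 1) := by
          have h3 : 1 ≤ 2 ^ r := Nat.one_le_two_pow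
          calc 2 ≤ 1 * (2 ^ r + 1) := by omega
            _ ≤ k ^ s * (2 ^ r + 1) := Nat.mul_le_mul_right _ h1
        omega
      have hkn : k ^ e ≤ k ^ e * n := Nat.le_mul_of_pos_right _ hn0
      refine ⟨k ^ e - ones r (MM r j) - 1, by omega, ?_⟩
      have e3 : k ^ e * n + (k ^ e - ones r (MM r j) - 1) = nj - 1 := by omega
      rw [e3]
      exact hn3 (by omega)

end Pool.Agent.Q50.BS
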